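import Pool.Agent.Helper55_PB.Mid

/-!
# CONT: continuity of the iterated differences
-/

open MeasureTheory Module Set Filter
open scoped RealInnerProductSpace Pointwise Topology ENNReal

namespace Pool.Agent.PB.H15

open Pool.Agent.Helper55_PB

variable {X : Type*} [TopologicalSpace X]
variable {E : Type*} [NormedAddCommGroup E] [InnerProductSpace ℝ E] [FiniteDimensional ℝ E]
  [MeasurableSpace E] [BorelSpace E]

/-- continuous families of convex bodies containing a fixed ball -/
structure ContFam (M : X → Set E) : Prop where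
  compact : ∀ x, IsCompact (M x)
  convex : ∀ x, Convex ℝ (M x)
  ball : ∃ (c : E) (ρ : ℝ), 0 < ρ ∧ ∀ x, Metric.closedBall c ρ ⊆ M x
  near : ∀ x0, ∀ ε : ℝ, 0 < ε → ∀ᶠ x in 𝓝 x0, (M x ⊆ M x0 + Metric.closedBall (0 : E) ε) ∧
    M x0 ⊆ M x + Metric.closedBall (0 : E) ε

omit [FiniteDimensional ℝ E] [MeasurableSpace E] [BorelSpace E] in
theorem seg_near {A B : Set E} {a b : E} {ε : ℝ} (hε : 0 < ε)
    (hAB : A ⊆ B + Metric.closedBall (0 : E) (ε / 2)) (hab : ‖a - b‖ ≤ ε / 2) :
    A + segment ℝ (0 : E) a ⊆ B + segment ℝ (0 : E) b + Metric.closedBall (0 : E) ε := by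
  rintro _ ⟨x, hx, z, hz, rfl⟩
  obtain ⟨y, hy, u, hu, rfl⟩ := hAB hx
  have h1 : z ∈ segment ℝ (0 : E) ((1 : ℝ) • a) := by rwa [one_smul]
  obtain ⟨t, h0, h1', rfl⟩ := mem_segment_smul zero_le_one h1
  refine ⟨y + t • b, ⟨y, hy, t • b, ?_, rfl⟩, u + t • (a - b), ?_, ?_⟩
  · have := smul_mem_segment h0 h1' b
    rwa [one_smul] at this
  · rw [Metric.mem_closedBall, dist_zero_right] at hu ⊢
    calc ‖u + t • (a - b)‖ ≤ ‖u‖ + ‖t • (a - b)‖ := norm_add_le _ _
      _ ≤ ε / 2 + 1 * (ε / 2) := by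
        rw [norm_smul, Real.norm_of_nonneg h0]
        gcongr
      _ = ε := by ring
  · simp only
    module

omit [FiniteDimensional ℝ E] [MeasurableSpace E] [BorelSpace E] in
theorem ContFam.add_segment {M : X → Set E} (hM : ContFam M) {a : X → E} (ha : Continuous a) :
    ContFam (fun x => M x + segment ℝ (0 : E) (a x)) := by
  refine ⟨fun x => (hM.compact x).add (isCompact_segment _ _),
    fun x => (hM.convex x).add (convex_segment _ _), ?_, ?_⟩
  · obtain ⟨c, ρ, hρ, hb⟩ := hM.ball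
    refine ⟨c, ρ, hρ, fun x z hz => ⟨z, hb x hz, 0, left_mem_segment _ _ _, by simp⟩⟩
  · intro x0 ε hε
    have h1 := hM.near x0 (ε / 2) (by positivity)
    have h2 : ∀ᶠ x in 𝓝 x0, ‖a x - a x0‖ ≤ ε / 2 := by
      have h3 := Metric.tendsto_nhds.1 (ha.tendsto x0) (ε / 2) (by positivity)
      filter_upwards [h3] with x hx
      rw [dist_eq_norm] at hx
      exact hx.le
    filter_upwards [h1, h2] with x hx1 hx2
    exact ⟨seg_near hε hx1.1 hx2, seg_near hε hx1.2 (by rwa [norm_sub_rev])⟩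

omit [FiniteDimensional ℝ E] [MeasurableSpace E] [BorelSpace E] in
/-- a small ball is absorbed by a homothety -/
theorem add_ball_subset {M : Set E} (hc : Convex ℝ M) {c : E} {ρ ε : ℝ} (hρ : 0 < ρ)
    (hε : 0 < ε) (hb : Metric.closedBall c ρ ⊆ M) :
    M + Metric.closedBall (0 : E) ε ⊆ AffineMap.homothety c (1 + ε / ρ) '' M := by
  rintro _ ⟨m, hm, u, hu, rfl⟩
  set t := ε / ρ with ht
  have ht0 : 0 < t := by positivity
  have h1 : (0 : ℝ) < 1 + t := by positivity
  have hcu : c + t⁻¹ • u ∈ M := by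
    apply hb
    rw [Metric.mem_closedBall, dist_eq_norm, add_sub_cancel_left, norm_smul, norm_inv,
      Real.norm_of_nonneg ht0.le]
    rw [Metric.mem_closedBall, dist_zero_right] at hu
    rw [inv_mul_le_iff₀ ht0, ht, div_mul_cancel₀ _ hρ.ne']
    exact hu
  refine ⟨(1 / (1 + t)) • m + (t / (1 + t)) • (c + t⁻¹ • u), ?_, ?_⟩
  · exact hc hm hcu (by positivity) (by positivity) (by field_simp)
  · rw [AffineMap.homothety_apply, vsub_eq_sub, vadd_eq_add]
    have e1 : (1 + t) * (1 / (1 + t)) = 1 := by field_simp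
    have e2 : (1 + t) * (t / (1 + t)) = t := by field_simp
    have e3 : t * t⁻¹ = 1 := by field_simp
    calc (1 + t) • ((1 / (1 + t)) • m + (t / (1 + t)) • (c + t⁻¹ • u) - c) + c
        = ((1 + t) * (1 / (1 + t))) • m + ((1 + t) * (t / (1 + t))) • (c + t⁻¹ • u)
            - (1 + t) • c + c := by module
      _ = m + t • (c + t⁻¹ • u) - (1 + t) • c + c := by rw [e1, e2, one_smul]
      _ = m + (t * t⁻¹) • u := by module
      _ = m + u := by rw [e3, one_smul]

theorem volume_le {A B : Set E} (hB : IsCompact B) (hc : Convex ℝ B) {c : E} {ρ ε : ℝ}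
    (hρ : 0 < ρ) (hε : 0 < ε) (hb : Metric.closedBall c ρ ⊆ B)
    (hAB : A ⊆ B + Metric.closedBall (0 : E) ε) :
    (volume A).toReal ≤ (1 + ε / ρ) ^ finrank ℝ E * (volume B).toReal := by
  have h1 : (0 : ℝ) < 1 + ε / ρ := by positivity
  have h2 : volume (AffineMap.homothety c (1 + ε / ρ) '' B) =
      ENNReal.ofReal ((1 + ε / ρ) ^ finrank ℝ E) * volume B := by
    rw [Measure.addHaar_image_homothety, abs_of_pos (by positivity)]
  have h3 : volume A ≤ ENNReal.ofReal ((1 + ε / ρ) ^ finrank ℝ E) * volume B := by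
    rw [← h2]
    exact measure_mono (hAB.trans (add_ball_subset hc hρ hε hb))
  have h4 : ENNReal.ofReal ((1 + ε / ρ) ^ finrank ℝ E) * volume B ≠ ∞ :=
    ENNReal.mul_ne_top ENNReal.ofReal_ne_top hB.measure_lt_top.ne
  have h5 := ENNReal.toReal_mono h4 h3
  rwa [ENNReal.toReal_mul, ENNReal.toReal_ofReal (by positivity)] at h5

theorem ContFam.continuous_volume {M : X → Set E} (hM : ContFam M) :
    Continuous (fun x => (volume (M x)).toReal) := by
  rw [continuous_iff_continuousAt]
  intro x0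
  obtain ⟨c, ρ, hρ, hb⟩ := hM.ball
  set n := finrank ℝ E
  set V := (volume (M x0)).toReal with hV
  rw [ContinuousAt, Metric.tendsto_nhds]
  intro δ hδ
  have hl1 : Tendsto (fun ε : ℝ => (1 + ε / ρ) ^ n * V) (𝓝[>] 0) (𝓝 V) := by
    have h1 : Continuous (fun ε : ℝ => (1 + ε / ρ) ^ n * V) := by fun_prop
    have h2 := h1.tendsto 0
    simp only [zero_div, add_zero, one_pow, one_mul] at h2
    exact h2.mono_left nhdsWithin_le_nhds
  have hl2 : Tendsto (fun ε : ℝ => V / (1 + ε / ρ) ^ n) (𝓝[>] 0) (𝓝 V) := by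
    have h1 : ContinuousAt (fun ε : ℝ => V / (1 + ε / ρ) ^ n) 0 := by
      apply ContinuousAt.div
      · fun_prop
      · fun_prop
      · simp
    have h2 := h1.tendsto
    simp only [zero_div, add_zero, one_pow, div_one] at h2
    exact h2.mono_left nhdsWithin_le_nhds
  have he1 := Metric.tendsto_nhds.1 hl1 δ hδ
  have he2 := Metric.tendsto_nhds.1 hl2 δ hδ
  obtain ⟨ε, ⟨h1, h2⟩, hε⟩ := ((he1.and he2).and self_mem_nhdsWithin).exists
  have hε0 : 0 < ε := hε
  filter_upwards [hM.near x0 ε hε0] with x hx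
  have h3 := volume_le (hM.compact x0) (hM.convex x0) hρ hε0 (hb x0) hx.1
  have h4 := volume_le (hM.compact x) (hM.convex x) hρ hε0 (hb x) hx.2
  rw [← hV] at h3 h4
  rw [Real.dist_eq, abs_lt] at h1 h2 ⊢
  have hp : (0 : ℝ) < (1 + ε / ρ) ^ n := by positivity
  have h5 : V / (1 + ε / ρ) ^ n ≤ (volume (M x)).toReal := by
    rw [div_le_iff₀ hp]
    linarith
  constructor
  · linarith [h2.1]
  · linarith [h1.2]

theorem ContFam.continuous_segVol {M : X → Set E} (hM : ContFam M) (w : E) :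
    Continuous (fun x => segVol (M x) w) :=
  (hM.add_segment (a := fun _ => w) continuous_const).continuous_volume.sub hM.continuous_volume

theorem ContFam.continuous_defect {M : X → Set E} (hM : ContFam M) (w₁ w₂ : E) :
    Continuous (fun x => defect (M x) w₁ w₂) :=
  ((hM.continuous_segVol w₁).add (hM.continuous_segVol w₂)).sub (hM.continuous_segVol _)

theorem ContFam.continuous_Del (w₁ w₂ : E) (k : ℕ) : ∀ {M : X → Set E}, ContFam M →
    ∀ g : Fin k → X → E, (∀ j, Continuous (g j)) →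
    Continuous (fun x => Del (List.ofFn fun j => g j x) (M x) w₁ w₂) := by
  induction k with
  | zero =>
    intro M hM g hg
    simp only [List.ofFn_zero, Del]
    exact hM.continuous_defect w₁ w₂
  | succ k ih =>
    intro M hM g hg
    simp only [List.ofFn_succ, Del]
    exact (ih (hM.add_segment (hg 0)) _ (fun j => hg j.succ)).sub (ih hM _ (fun j => hg j.succ))

theorem delCont : DelContStmt := by
  intro E _ _ _ _ _ k K hK hc hi w₁ w₂
  have hM : ContFam (fun _ : Fin k → E => K) := by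
    refine ⟨fun _ => hK, fun _ => hc, ?_, ?_⟩
    · obtain ⟨c, hci⟩ := hi
      obtain ⟨ε, hε, hb⟩ := Metric.mem_nhds_iff.1 (mem_interior_iff_mem_nhds.1 hci)
      exact ⟨c, ε / 2, by positivity, fun _ =>
        (Metric.closedBall_subset_ball (by linarith)).trans hb⟩
    · intro x0 ε hε
      refine Filter.Eventually.of_forall fun x => ?_
      have : K ⊆ K + Metric.closedBall (0 : E) ε := fun z hz =>
        ⟨z, hz, 0, Metric.mem_closedBall_self hε.le, by simp⟩
      exact ⟨this, this⟩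
  exact ContFam.continuous_Del w₁ w₂ k hM (fun j g => g j) (fun j => continuous_apply j)

end Pool.Agent.PB.H15
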