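import Pool.Agent.Helper15_PB.Lin

/-!
# Full orthogonal decomposition of a pole cone
-/

set_option autoImplicit false

open Submodule

namespace Pool.Agent.PB.H15

universe u

section Restrict

variable {E : Type u} [NormedAddCommGroup E] [InnerProductSpace ℝ E] [FiniteDimensional ℝ E]
  {S : Set E}

theorem lat_of_split (hS : PoleCone S) {V : Submodule ℝ E}
    (h : S ⊆ (V : Set E) ∪ (Vᗮ : Submodule ℝ E)) : Lat S V ∧ Lat S Vᗮ := by
  have h1 : Lat S V := by
    intro x hx
    have hle : Submodule.span ℝ S ≤ span ℝ (S ∩ V) ⊔ span ℝ (S ∩ (Vᗮ : Submodule ℝ E)) := by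
      rw [Submodule.span_le]
      intro s hs
      rcases h hs with h | h
      · exact (le_sup_left : _ ≤ span ℝ (S ∩ V) ⊔ span ℝ (S ∩ (Vᗮ : Submodule ℝ E)))
          (Submodule.subset_span ⟨hs, h⟩)
      · exact (le_sup_right : _ ≤ span ℝ (S ∩ V) ⊔ span ℝ (S ∩ (Vᗮ : Submodule ℝ E)))
          (Submodule.subset_span ⟨hs, h⟩)
    have hxt : x ∈ Submodule.span ℝ S := by rw [hS.span]; trivial
    obtain ⟨a, ha, b, hb, rfl⟩ := Submodule.mem_sup.1 (hle hxt)
    have haV : a ∈ V := (Submodule.span_le.2 (fun x hx => hx.2) : span ℝ (S ∩ V) ≤ V) ha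
    have hbV : b ∈ Vᗮ :=
      (Submodule.span_le.2 (fun x hx => hx.2) : span ℝ (S ∩ (Vᗮ : Submodule ℝ E)) ≤ Vᗮ) hb
    have hb' : b ∈ V := by
      have := Submodule.sub_mem _ hx haV
      simpa using this
    have hb0 : b = 0 := inner_self_eq_zero.1 (Submodule.inner_right_of_mem_orthogonal hb' hbV)
    rw [hb0, add_zero]
    exact ha
  exact ⟨h1, h1.perp hS⟩

theorem PoleCone.restrict (hS : PoleCone S) {W : Submodule ℝ E}
    (h : S ⊆ (W : Set E) ∪ (Wᗮ : Submodule ℝ E)) : PoleCone {x : W | (x : E) ∈ S} := by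
  obtain ⟨hW, hW'⟩ := lat_of_split hS h
  have himg : ∀ T : Set E, (W.subtype '' ({x : W | (x : E) ∈ S} ∩ {x : W | (x : E) ∈ T})) =
      (S ∩ W) ∩ T := by
    intro T
    ext x
    constructor
    · rintro ⟨y, ⟨h1, h2⟩, rfl⟩
      exact ⟨⟨h1, y.2⟩, h2⟩
    · rintro ⟨⟨h1, h2⟩, h3⟩
      exact ⟨⟨x, h2⟩, ⟨h1, h3⟩, rfl⟩
  refine ⟨hS.closed.preimage continuous_subtype_val, hS.zero, ?_, ?_, ?_⟩
  · intro s hs t
    exact hS.cone s hs t
  · apply Submodule.map_injective_of_injective W.injective_subtype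
    rw [Submodule.map_span, Submodule.map_subtype_top]
    have h1 := himg Set.univ
    simp only [Set.mem_univ, Set.setOf_true, Set.inter_univ] at h1
    rw [h1]
    exact le_antisymm (Submodule.span_le.2 (fun x hx => hx.2)) hW
  · intro w hw0 hspan
    show (w : E) ∈ S
    have hw0' : (w : E) ≠ 0 := fun h => hw0 (Subtype.ext h)
    apply hS.pole _ hw0'
    apply le_antisymm
    · rw [Submodule.span_le]
      intro x hx
      exact Submodule.mem_orthogonal_singleton_iff_inner_right.2 hx.2
    · intro x hx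
      rw [Submodule.mem_orthogonal_singleton_iff_inner_right] at hx
      obtain ⟨a, ha, b, hb, rfl⟩ := Submodule.exists_add_mem_mem_orthogonal (K := W) x
      have hwb : inner ℝ (w : E) b = 0 := Submodule.inner_right_of_mem_orthogonal w.2 hb
      rw [inner_add_right, hwb, add_zero] at hx
      refine Submodule.add_mem _ ?_ ?_
      · have h1 : (⟨a, ha⟩ : W) ∈ (ℝ ∙ w)ᗮ := by
          rw [Submodule.mem_orthogonal_singleton_iff_inner_right]
          exact hx
        rw [← hspan] at h1
        have h2 : (a : E) ∈ Submodule.map W.subtype (Submodule.span ℝ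
            ({x : W | (x : E) ∈ S} ∩ {v | inner ℝ w v = 0})) :=
          ⟨⟨a, ha⟩, h1, rfl⟩
        rw [Submodule.map_span] at h2
        refine Submodule.span_mono ?_ h2
        rintro _ ⟨y, ⟨h3, h4⟩, rfl⟩
        exact ⟨h3, h4⟩
      · refine Submodule.span_mono ?_ (hW' hb)
        rintro y ⟨h3, h4⟩
        exact ⟨h3, Submodule.inner_right_of_mem_orthogonal w.2 h4⟩

end Restrict

theorem dec_aux (n : ℕ) : ∀ (E : Type u) [NormedAddCommGroup E] [InnerProductSpace ℝ E]
    [FiniteDimensional ℝ E] (S : Set E), Module.finrank ℝ E = n → PoleCone S →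
    ∃ (m : ℕ) (V : Fin m → Submodule ℝ E), (∀ i, V i ≠ ⊥) ∧
      (∀ i j, i ≠ j → ∀ x ∈ V i, ∀ y ∈ V j, inner ℝ x y = 0) ∧ (⨆ i, V i) = ⊤ ∧
      (∀ s ∈ S, s ≠ 0 → ∃ i, s ∈ V i) ∧
      ∀ i, ((V i : Set E) ⊆ S ∨ Module.finrank ℝ (V i) ≤ 2) := by
  induction n using Nat.strong_induction_on with
  | _ n ih =>
    intro E _ _ _ S hn hS
    rcases subsingleton_or_nontrivial E with hE | hE
    · refine ⟨0, fun i => i.elim0, fun i => i.elim0, fun i => i.elim0, ?_, ?_, fun i => i.elim0⟩
      · exact Subsingleton.elim _ _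
      · intro s _ hs0
        exact absurd (Subsingleton.elim s 0) hs0
    · obtain ⟨V, hV0, hSV, hV⟩ := split hS
      set W : Submodule ℝ E := Vᗮ with hWdef
      have hWW : Wᗮ = V := by rw [hWdef, Submodule.orthogonal_orthogonal]
      have hSW : S ⊆ (W : Set E) ∪ (Wᗮ : Submodule ℝ E) := by
        rw [hWW]
        intro s hs
        exact (hSV hs).symm
      have hlt : Module.finrank ℝ W < n := by
        have h1 := Submodule.finrank_add_finrank_orthogonal V
        have h2 : 0 < Module.finrank ℝ V := by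
          haveI := Submodule.nontrivial_iff_ne_bot.2 hV0
          exact Module.finrank_pos
        rw [hn, ← hWdef] at h1
        omega
      obtain ⟨m, V', h1, h2, h3, h4, h5⟩ := ih _ hlt W _ rfl (hS.restrict hSW)
      refine ⟨m + 1, Fin.cons V (fun i => (V' i).map W.subtype), ?_, ?_, ?_, ?_, ?_⟩
      · intro i
        refine Fin.cases ?_ (fun i => ?_) i
        · exact hV0
        · rw [Fin.cons_succ]
          intro h
          apply h1 i
          rw [Submodule.eq_bot_iff] at *
          intro x hx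
          exact Subtype.ext (h _ ⟨x, hx, rfl⟩)
      · intro i j
        refine Fin.cases ?_ (fun i => ?_) i <;> refine Fin.cases ?_ (fun j => ?_) j
        · intro h; exact absurd rfl h
        · rintro - x hx _ ⟨y, hy, rfl⟩
          exact Submodule.inner_right_of_mem_orthogonal (K := V) hx y.2
        · rintro - _ ⟨x, hx, rfl⟩ y hy
          exact Submodule.inner_left_of_mem_orthogonal (K := V) hy x.2
        · rintro hij _ ⟨x, hx, rfl⟩ _ ⟨y, hy, rfl⟩
          exact h2 i j (fun h => hij (by rw [h])) x hx y hy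
      · rw [eq_top_iff, ← Submodule.sup_orthogonal_of_hasOrthogonalProjection (K := V)]
        refine sup_le (le_iSup (Fin.cons V fun i => (V' i).map W.subtype :
          Fin (m + 1) → Submodule ℝ E) 0) ?_
        have h6 : Vᗮ = (⨆ i, V' i).map W.subtype := by
          rw [h3, Submodule.map_subtype_top]
        rw [h6, Submodule.map_iSup]
        refine iSup_le fun i => ?_
        exact le_iSup (Fin.cons V fun i => (V' i).map W.subtype :
          Fin (m + 1) → Submodule ℝ E) i.succ
      · intro s hs hs0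
        rcases hSW hs with h | h
        · obtain ⟨i, hi⟩ := h4 ⟨s, h⟩ hs (fun h => hs0 (congrArg Subtype.val h))
          exact ⟨i.succ, ⟨⟨s, h⟩, hi, rfl⟩⟩
        · rw [hWW] at h
          exact ⟨0, h⟩
      · intro i
        refine Fin.cases ?_ (fun i => ?_) i
        · exact hV
        · rcases h5 i with h | h
          · left
            rintro _ ⟨x, hx, rfl⟩
            exact h hx
          · right
            rw [Fin.cons_succ, Submodule.finrank_map_subtype_eq]
            exact h

/-- **Decomposition.** -/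
theorem dec {E : Type u} [NormedAddCommGroup E] [InnerProductSpace ℝ E]
    [FiniteDimensional ℝ E] [Nontrivial E] {S : Set E} (hS : PoleCone S) :
    ∃ (m : ℕ) (V : Fin m → Submodule ℝ E), (∀ i, V i ≠ ⊥) ∧
      (∀ i j, i ≠ j → ∀ x ∈ V i, ∀ y ∈ V j, inner ℝ x y = 0) ∧ (⨆ i, V i) = ⊤ ∧
      (∀ s ∈ S, ∃ i, s ∈ V i) ∧
      ∀ i, ((V i : Set E) ⊆ S ∨ Module.finrank ℝ (V i) ≤ 2) := by
  obtain ⟨m, V, h1, h2, h3, h4, h5⟩ := dec_aux _ E S rfl hS
  refine ⟨m, V, h1, h2, h3, ?_, h5⟩
  intro s hs
  by_cases hs0 : s = 0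
  · have hm : Nonempty (Fin m) := by
      by_contra hcon
      rw [not_nonempty_iff] at hcon
      rw [iSup_of_empty] at h3
      exact bot_ne_top h3
    obtain ⟨i⟩ := hm
    exact ⟨i, by rw [hs0]; exact Submodule.zero_mem _⟩
  · exact h4 s hs hs0

end Pool.Agent.PB.H15
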