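import Mathlib

/-!
# Closed pole-closed cones split orthogonally

`S` is a closed cone with `0 ∈ S`, symmetric, spanning a finite dimensional real inner product space
and such that `w ∈ S` as soon as `S ∩ w⊥` spans `w⊥`. Then `S ⊆ V ∪ V⊥` for a nonzero subspace `V`
which is contained in `S` or has dimension at most two.
-/

set_option autoImplicit false

open Submodule

namespace Pool.Agent.PB.H15

variable {E : Type*} [NormedAddCommGroup E] [InnerProductSpace ℝ E]

/-- the conditions on the set `S` -/
structure PoleCone (S : Set E) : Prop where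
  closed : IsClosed S
  zero : (0 : E) ∈ S
  cone : ∀ s ∈ S, ∀ t : ℝ, t • s ∈ S
  span : Submodule.span ℝ S = ⊤
  pole : ∀ w : E, w ≠ 0 → Submodule.span ℝ (S ∩ {v | (inner ℝ w v) = 0}) = (ℝ ∙ w)ᗮ → w ∈ S

/-- subspaces spanned by elements of `S` -/
def Lat (S : Set E) (U : Submodule ℝ E) : Prop := U ≤ Submodule.span ℝ (S ∩ U)

/-- linear independence of three vectors -/
def Ind3 (p q r : E) : Prop := ∀ α β γ : ℝ, α • p + β • q + γ • r = 0 → α = 0 ∧ β = 0 ∧ γ = 0

section Basic

variable {S : Set E}

theorem Lat.sup {U W : Submodule ℝ E} (hU : Lat S U) (hW : Lat S W) : Lat S (U ⊔ W) := by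
  refine sup_le (hU.trans ?_) (hW.trans ?_)
  · exact Submodule.span_mono (Set.inter_subset_inter_right _ (fun x hx => (le_sup_left : U ≤ U ⊔ W) hx))
  · exact Submodule.span_mono (Set.inter_subset_inter_right _ (fun x hx => (le_sup_right : W ≤ U ⊔ W) hx))

theorem lat_line {s : E} (hs : s ∈ S) : Lat S (ℝ ∙ s) := by
  unfold Lat
  rw [Submodule.span_singleton_le_iff_mem]
  exact Submodule.subset_span ⟨hs, Submodule.mem_span_singleton_self s⟩

theorem lat_plane {p q : E} (hp : p ∈ S) (hq : q ∈ S) : Lat S (span ℝ {p, q}) := by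
  rw [Submodule.span_insert]
  exact (lat_line hp).sup (lat_line hq)

theorem mem_of_lat_line (hS : PoleCone S) {x : E} (hx : Lat S (ℝ ∙ x)) : x ∈ S := by
  by_cases hx0 : x = 0
  · rw [hx0]; exact hS.zero
  by_contra hcon
  have h1 : ∀ y ∈ S ∩ ((ℝ ∙ x : Submodule ℝ E) : Set E), y = 0 := by
    rintro y ⟨hyS, hy⟩
    obtain ⟨c, rfl⟩ := Submodule.mem_span_singleton.1 hy
    by_cases hc : c = 0
    · rw [hc, zero_smul]
    · exfalso
      apply hcon
      have := hS.cone _ hyS c⁻¹
      rwa [smul_smul, inv_mul_cancel₀ hc, one_smul] at this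
  have h2 : span ℝ (S ∩ ((ℝ ∙ x : Submodule ℝ E) : Set E)) = ⊥ := Submodule.span_eq_bot.2 h1
  have h3 := hx (Submodule.mem_span_singleton_self x)
  rw [h2, Submodule.mem_bot] at h3
  exact hx0 h3

variable [FiniteDimensional ℝ E]

/-- a proper subspace of the lattice is contained in a hyperplane of the lattice, whose normal is in
`S` -/
theorem exists_normal (hS : PoleCone S) {U : Submodule ℝ E} (hU : Lat S U) (hne : U ≠ ⊤) :
    ∃ w ∈ S, w ≠ 0 ∧ w ∈ Uᗮ ∧ Lat S (ℝ ∙ w)ᗮ ∧ U ≤ (ℝ ∙ w)ᗮ := by
  have hex : ∃ H : Submodule ℝ E, (Lat S H ∧ U ≤ H ∧ H ≠ ⊤) ∧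
      ∀ H' : Submodule ℝ E, (Lat S H' ∧ U ≤ H' ∧ H' ≠ ⊤) → ¬ H < H' := by
    have := (wellFounded_gt (α := Submodule ℝ E)).has_min
      {H | Lat S H ∧ U ≤ H ∧ H ≠ ⊤} ⟨U, hU, le_rfl, hne⟩
    obtain ⟨H, hH, hmin⟩ := this
    exact ⟨H, hH, fun H' hH' hlt => hmin H' hH' hlt⟩
  obtain ⟨H, ⟨hH, hUH, hHt⟩, hmax⟩ := hex
  -- an element of `S` outside of `H`
  have hs : ∃ s ∈ S, s ∉ H := by
    by_contra hcon
    push Not at hcon
    apply hHt
    rw [eq_top_iff, ← hS.span]
    exact Submodule.span_le.2 hcon
  obtain ⟨s, hsS, hsH⟩ := hs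
  have htop : H ⊔ (ℝ ∙ s) = ⊤ := by
    by_contra hcon
    refine hmax _ ⟨hH.sup (lat_line hsS), hUH.trans le_sup_left, hcon⟩ ?_
    refine lt_of_le_of_ne le_sup_left ?_
    intro he
    apply hsH
    rw [he]
    exact (le_sup_right : (ℝ ∙ s) ≤ H ⊔ (ℝ ∙ s)) (Submodule.mem_span_singleton_self s)
  have hperp : Hᗮ ≠ ⊥ := by
    intro h
    apply hHt
    rwa [Submodule.orthogonal_eq_bot_iff] at h
  obtain ⟨w, hwH, hw0⟩ := Submodule.exists_mem_ne_zero_of_ne_bot hperp
  have key : ∀ y ∈ Hᗮ, (inner ℝ s y) = 0 → y = 0 := by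
    intro y hy hsy
    have h1 : y ∈ (H ⊔ (ℝ ∙ s))ᗮ := by
      rw [← Submodule.inf_orthogonal]
      exact ⟨hy, Submodule.mem_orthogonal_singleton_iff_inner_right.2 hsy⟩
    rw [htop, Submodule.top_orthogonal_eq_bot, Submodule.mem_bot] at h1
    exact h1
  have hsw : (inner ℝ s w) ≠ 0 := fun h => hw0 (key w hwH h)
  have hline : Hᗮ = ℝ ∙ w := by
    apply le_antisymm
    · intro x hx
      have h1 : x - ((inner ℝ s x) / (inner ℝ s w)) • w = 0 := by
        apply key
        · exact Submodule.sub_mem _ hx (Submodule.smul_mem _ _ hwH)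
        · rw [inner_sub_right, inner_smul_right]
          field_simp
          ring
      rw [sub_eq_zero] at h1
      rw [h1]
      exact Submodule.smul_mem _ _ (Submodule.mem_span_singleton_self w)
    · rw [Submodule.span_singleton_le_iff_mem]
      exact hwH
  have hHw : (ℝ ∙ w)ᗮ = H := by
    rw [← hline, Submodule.orthogonal_orthogonal]
  have hset : {v : E | (inner ℝ w v) = 0} = (H : Set E) := by
    ext v
    rw [← hHw]
    simp only [Set.mem_setOf_eq, SetLike.mem_coe]
    exact Submodule.mem_orthogonal_singleton_iff_inner_right.symm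
  have hwS : w ∈ S := by
    apply hS.pole w hw0
    rw [hset, hHw]
    exact le_antisymm (Submodule.span_le.2 (fun x hx => hx.2)) hH
  refine ⟨w, hwS, hw0, Submodule.orthogonal_le hUH hwH, ?_, ?_⟩
  · rw [hHw]; exact hH
  · rw [hHw]; exact hUH

theorem Lat.perp (hS : PoleCone S) {U : Submodule ℝ E} (hU : Lat S U) : Lat S Uᗮ := by
  set W : Submodule ℝ E := span ℝ (S ∩ (Uᗮ : Submodule ℝ E)) with hW
  have hWle : W ≤ Uᗮ := Submodule.span_le.2 (fun x hx => hx.2)
  have hLW : Lat S W := by
    unfold Lat
    rw [hW]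
    apply Submodule.span_mono
    intro x hx
    exact ⟨hx.1, Submodule.subset_span hx⟩
  have htop : U ⊔ W = ⊤ := by
    by_contra hcon
    obtain ⟨w, hwS, hw0, hw1, -, hw3⟩ := exists_normal hS (hU.sup hLW) hcon
    have h1 : w ∈ Uᗮ := Submodule.orthogonal_le le_sup_left hw1
    have h2 : w ∈ W := Submodule.subset_span ⟨hwS, h1⟩
    have h3 : w ∈ (ℝ ∙ w)ᗮ := hw3 ((le_sup_right : W ≤ U ⊔ W) h2)
    rw [Submodule.mem_orthogonal_singleton_iff_inner_right] at h3
    exact hw0 (inner_self_eq_zero.1 h3)
  intro x hx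
  have hxt : x ∈ U ⊔ W := by rw [htop]; trivial
  obtain ⟨u, hu, z, hz, rfl⟩ := Submodule.mem_sup.1 hxt
  have h1 : u ∈ Uᗮ := by
    have := Submodule.sub_mem _ hx (hWle hz)
    simpa using this
  have h2 : u = 0 := by
    have := Submodule.inner_right_of_mem_orthogonal hu h1
    exact inner_self_eq_zero.1 this
  rw [h2, zero_add]
  exact hz

theorem Lat.inf (hS : PoleCone S) {U W : Submodule ℝ E} (hU : Lat S U) (hW : Lat S W) :
    Lat S (U ⊓ W) := by
  have h := ((hU.perp hS).sup (hW.perp hS)).perp hS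
  rwa [← Submodule.inf_orthogonal, Submodule.orthogonal_orthogonal,
    Submodule.orthogonal_orthogonal] at h

/-- the basic construction: a point on two lines -/
theorem cross (hS : PoleCone S) {p q r s x : E} (hp : p ∈ S) (hq : q ∈ S) (hr : r ∈ S)
    (hs : s ∈ S) (hind : Ind3 p q r) {α β γ δ : ℝ} (h1 : x = α • p + β • q)
    (h2 : x = γ • r + δ • s) : x ∈ S := by
  by_cases hx0 : x = 0
  · rw [hx0]; exact hS.zero
  have hδ : δ ≠ 0 := by
    intro hδ
    rw [hδ, zero_smul, add_zero] at h2
    have h3 : α • p + β • q + (-γ) • r = 0 := by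
      rw [← h1, h2, neg_smul, add_neg_cancel]
    have h4 := hind _ _ _ h3
    apply hx0
    rw [h1, h4.1, h4.2.1]; simp
  apply mem_of_lat_line hS
  have h3 : span ℝ {p, q} ⊓ span ℝ {r, s} = ℝ ∙ x := by
    apply le_antisymm
    · rintro y ⟨hy1, hy2⟩
      obtain ⟨α', β', hy1⟩ := Submodule.mem_span_pair.1 hy1
      obtain ⟨γ', δ', hy2⟩ := Submodule.mem_span_pair.1 hy2
      have hs' : s = δ⁻¹ • (α • p + β • q - γ • r) := by
        rw [← h1, h2, add_sub_cancel_left, smul_smul, inv_mul_cancel₀ hδ, one_smul]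
      have h4 : (α' - δ' * δ⁻¹ * α) • p + (β' - δ' * δ⁻¹ * β) • q +
          (-(γ' - δ' * δ⁻¹ * γ)) • r = 0 := by
        have h5 : α' • p + β' • q = γ' • r + δ' • s := by rw [hy1, hy2]
        rw [hs'] at h5
        have h6 : α' • p + β' • q - (γ' • r + δ' • δ⁻¹ • (α • p + β • q - γ • r)) = 0 :=
          sub_eq_zero.2 h5
        rw [← h6]
        module
      have h5 := hind _ _ _ h4
      rw [Submodule.mem_span_singleton]
      refine ⟨δ' * δ⁻¹, ?_⟩
      rw [← hy1, h1]
      have e1 : α' = δ' * δ⁻¹ * α := by linarith [h5.1]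
      have e2 : β' = δ' * δ⁻¹ * β := by linarith [h5.2.1]
      rw [e1, e2]
      module
    · rw [Submodule.span_singleton_le_iff_mem]
      exact ⟨Submodule.mem_span_pair.2 ⟨α, β, h1.symm⟩, Submodule.mem_span_pair.2 ⟨γ, δ, h2.symm⟩⟩
  rw [← h3]
  exact (lat_plane hp hq).inf hS (lat_plane hr hs)

/-- coordinates with respect to three independent vectors -/
theorem Ind3.coord {a b d : E} (h : Ind3 a b d) {x y z : ℝ} {v : E} (hv : v = 0)
    (he : v = x • a + y • b + z • d) : x = 0 ∧ y = 0 ∧ z = 0 := h x y z (by rw [← he, hv])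

/-- the von Staudt argument -/
theorem three (hS : PoleCone S) {a b d : E} (ha : a ∈ S) (hb : b ∈ S) (hd : d ∈ S)
    (hi : Ind3 a b d) (hab : a + b ∈ S) (had : a + d ∈ S) (x y z : ℝ) :
    x • a + y • b + z • d ∈ S := by
  have hbd' : b - d ∈ S := cross hS hab had hb hd (α := 1) (β := -1) (γ := 1) (δ := -1)
    (fun α β γ h => by
      obtain ⟨h1, h2, h3⟩ := hi.coord (x := α + β) (y := α + γ) (z := β) h (by module)
      refine ⟨by linarith, by linarith, by linarith⟩) (by module) (by module)
  have habd : a + b + d ∈ S := cross hS hab hd had hb (α := 1) (β := 1) (γ := 1) (δ := 1)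
    (fun α β γ h => by
      obtain ⟨h1, h2, h3⟩ := hi.coord (x := α + γ) (y := α) (z := β + γ) h (by module)
      refine ⟨by linarith, by linarith, by linarith⟩) (by module) (by module)
  have hbd : b + d ∈ S := cross hS habd ha hb hd (α := 1) (β := -1) (γ := 1) (δ := 1)
    (fun α β γ h => by
      obtain ⟨h1, h2, h3⟩ := hi.coord (x := α + β) (y := α + γ) (z := α) h (by module)
      refine ⟨by linarith, by linarith, by linarith⟩) (by module) (by module)
  have hab' : a - b ∈ S := cross hS had hbd ha hb (α := 1) (β := -1) (γ := 1) (δ := -1)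
    (fun α β γ h => by
      obtain ⟨h1, h2, h3⟩ := hi.coord (x := α + γ) (y := β) (z := α + β) h (by module)
      refine ⟨by linarith, by linarith, by linarith⟩) (by module) (by module)
  have had' : a - d ∈ S := cross hS hab hbd ha hd (α := 1) (β := -1) (γ := 1) (δ := -1)
    (fun α β γ h => by
      obtain ⟨h1, h2, h3⟩ := hi.coord (x := α + γ) (y := α + β) (z := β) h (by module)
      refine ⟨by linarith, by linarith, by linarith⟩) (by module) (by module)
  -- transfer from `b` to `d`
  have T1 : ∀ t : ℝ, t • a + b ∈ S → t • a + d ∈ S := fun t ht =>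
    cross hS ht hbd' ha hd (α := 1) (β := -1) (γ := t) (δ := 1)
    (fun α β γ h => by
      obtain ⟨h1, h2, h3⟩ := hi.coord (x := α * t + γ) (y := α + β) (z := -β) h (by module)
      have h4 : β = 0 := by linarith
      have h5 : α = 0 := by linarith
      subst h5
      refine ⟨rfl, h4, by linarith⟩) (by module) (by module)
  have T2 : ∀ s t : ℝ, s • a + b ∈ S → t • a + b ∈ S → (s + t) • a + b ∈ S := by
    intro s t hs ht
    have h0 : (s + t) • a + b + d ∈ S :=
      cross hS hs (T1 t ht) ha hbd (α := 1) (β := 1) (γ := s + t) (δ := 1)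
      (fun α β γ h => by
        obtain ⟨h1, h2, h3⟩ := hi.coord (x := α * s + β * t + γ) (y := α) (z := β) h (by module)
        subst h2 h3
        refine ⟨rfl, rfl, by linarith⟩) (by module) (by module)
    exact cross hS h0 hd ha hb (α := 1) (β := -1) (γ := s + t) (δ := 1)
      (fun α β γ h => by
        obtain ⟨h1, h2, h3⟩ := hi.coord (x := α * (s + t) + γ) (y := α) (z := α + β) h (by module)
        subst h2
        refine ⟨rfl, by linarith, by linarith⟩) (by module) (by module)
  have T3 : ∀ t : ℝ, t • a + b ∈ S → (-t) • a + b ∈ S := fun t ht =>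
    cross hS hbd (T1 t ht) ha hb (α := 1) (β := -1) (γ := -t) (δ := 1)
    (fun α β γ h => by
      obtain ⟨h1, h2, h3⟩ := hi.coord (x := β * t + γ) (y := α) (z := α + β) h (by module)
      have h4 : β = 0 := by linarith
      subst h4
      refine ⟨h2, rfl, by linarith⟩) (by module) (by module)
  have T4 : ∀ t : ℝ, t • a + b ∈ S → t • b + d ∈ S := fun t ht =>
    cross hS (T1 t ht) hab' hb hd (α := 1) (β := -t) (γ := t) (δ := 1)
    (fun α β γ h => by
      obtain ⟨h1, h2, h3⟩ := hi.coord (x := α * t + β) (y := -β + γ) (z := α) h (by module)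
      subst h3
      have h4 : β = 0 := by linarith
      exact ⟨rfl, h4, by linarith⟩) (by module) (by module)
  have T5 : ∀ t : ℝ, t ≠ 0 → t • a + b ∈ S → t⁻¹ • a + b ∈ S := by
    intro t ht0 ht
    have h0 : a + t • b ∈ S :=
      cross hS (T4 t ht) had' ha hb (α := 1) (β := 1) (γ := 1) (δ := t)
      (fun α β γ h => by
        obtain ⟨h1, h2, h3⟩ := hi.coord (x := β + γ) (y := α * t) (z := α - β) h (by module)
        have h4 : α = 0 := by
          rcases mul_eq_zero.1 h2 with h | h
          · exact h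
          · exact absurd h ht0
        subst h4
        refine ⟨rfl, by linarith, by linarith⟩) (by module) (by module)
    have h1 := hS.cone _ h0 t⁻¹
    rwa [smul_add, smul_smul, inv_mul_cancel₀ ht0, one_smul] at h1
  let G : AddSubgroup ℝ :=
    { carrier := {t | t • a + b ∈ S}
      add_mem' := fun {s t} hs ht => T2 s t hs ht
      zero_mem' := by
        change (0 : ℝ) • a + b ∈ S
        rw [zero_smul, zero_add]; exact hb
      neg_mem' := fun {t} ht => T3 t ht }
  have hG1 : (1 : ℝ) ∈ G := by
    change (1 : ℝ) • a + b ∈ S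
    rw [one_smul]; exact hab
  have hGinv : ∀ t : ℝ, t ∈ G → t⁻¹ ∈ G := by
    intro t ht
    by_cases ht0 : t = 0
    · rw [ht0, inv_zero]; exact G.zero_mem
    · exact T5 t ht0 ht
  have hGq : ∀ q : ℚ, (q : ℝ) ∈ G := by
    intro q
    have h1 : ((q.den : ℕ) : ℝ) ∈ G := by
      have := G.nsmul_mem hG1 q.den
      simpa using this
    have h2 := G.zsmul_mem (hGinv _ h1) q.num
    have h3 : q.num • ((q.den : ℕ) : ℝ)⁻¹ = (q : ℝ) := by
      rw [zsmul_eq_mul]
      conv_rhs => rw [Rat.cast_def]
      rw [div_eq_mul_inv]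
    rwa [h3] at h2
  have hGcl : IsClosed {t : ℝ | t • a + b ∈ S} :=
    hS.closed.preimage ((continuous_id.smul continuous_const).add continuous_const)
  have hGall : ∀ t : ℝ, t • a + b ∈ S := by
    have h1 : Set.range ((↑) : ℚ → ℝ) ⊆ {t : ℝ | t • a + b ∈ S} := by
      rintro _ ⟨q, rfl⟩
      exact hGq q
    have h2 := hGcl.closure_subset_iff.2 h1
    rw [Rat.denseRange_cast.closure_range] at h2
    intro t
    exact h2 (Set.mem_univ t)
  have A1 : ∀ t : ℝ, t • a + d ∈ S := fun t => T1 t (hGall t)
  have A2 : ∀ t : ℝ, t • b + d ∈ S := fun t => T4 t (hGall t)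
  by_cases hz : z = 0
  · subst hz
    rw [zero_smul, add_zero]
    by_cases hy : y = 0
    · subst hy
      rw [zero_smul, add_zero]
      exact hS.cone _ ha x
    · have h1 := hS.cone _ (hGall (y⁻¹ * x)) y
      rwa [smul_add, smul_smul, ← mul_assoc, mul_inv_cancel₀ hy, one_mul] at h1
  · by_cases hx : x = 0
    · subst hx
      rw [zero_smul, zero_add]
      have h1 := hS.cone _ (A2 (z⁻¹ * y)) z
      rwa [smul_add, smul_smul, ← mul_assoc, mul_inv_cancel₀ hz, one_mul] at h1
    · have hx' : z⁻¹ * x ≠ 0 := mul_ne_zero (inv_ne_zero hz) hx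
      have h0 : (z⁻¹ * x) • a + (z⁻¹ * y) • b + d ∈ S :=
        cross hS (A1 (z⁻¹ * x)) hb (A2 (z⁻¹ * y)) ha (α := 1) (β := z⁻¹ * y) (γ := 1)
          (δ := z⁻¹ * x)
        (fun α β γ h => by
          obtain ⟨h1, h2, h3⟩ := hi.coord (x := α * (z⁻¹ * x)) (y := β + γ * (z⁻¹ * y))
            (z := α + γ) h (by module)
          have h4 : α = 0 := by
            rcases mul_eq_zero.1 h1 with h | h
            · exact h
            · exact absurd h hx'
          subst h4
          have h5 : γ = 0 := by linarith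
          subst h5
          refine ⟨rfl, by linarith, rfl⟩) (by module) (by module)
      have h1 := hS.cone _ h0 z
      rwa [smul_add, smul_add, smul_smul, smul_smul, ← mul_assoc, ← mul_assoc,
        mul_inv_cancel₀ hz, one_mul, one_mul] at h1

/-- components of an element of `S` -/
theorem comp_mem (hS : PoleCone S) {V : Submodule ℝ E} (hV : Lat S V) {y z : E} (hy : y ∈ V)
    (hz : z ∈ Vᗮ) (h : y + z ∈ S) : y ∈ S ∧ z ∈ S := by
  have main : ∀ (W : Submodule ℝ E), Lat S W → ∀ y z : E, y ∈ W → z ∈ Wᗮ → y + z ∈ S → y ∈ S := by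
    intro W hW y z hy hz h
    apply mem_of_lat_line hS
    have h1 := ((lat_line h).sup (hW.perp hS)).inf hS hW
    have h2 : ((ℝ ∙ (y + z)) ⊔ Wᗮ) ⊓ W = ℝ ∙ y := by
      apply le_antisymm
      · rintro x ⟨hx1, hx2⟩
        obtain ⟨u, hu, v, hv, rfl⟩ := Submodule.mem_sup.1 hx1
        obtain ⟨c, rfl⟩ := Submodule.mem_span_singleton.1 hu
        have h3 : c • z + v ∈ W := by
          have := Submodule.sub_mem _ hx2 (W.smul_mem c hy)
          have e : c • (y + z) + v - c • y = c • z + v := by module
          rwa [e] at this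
        have h4 : c • z + v ∈ Wᗮ := Submodule.add_mem _ (Submodule.smul_mem _ _ hz) hv
        have h5 : c • z + v = 0 := by
          have := Submodule.inner_right_of_mem_orthogonal h3 h4
          exact inner_self_eq_zero.1 this
        have h6 : c • (y + z) + v = c • y := by
          have e : c • (y + z) + v = c • y + (c • z + v) := by module
          rw [e, h5, add_zero]
        change c • (y + z) + v ∈ ℝ ∙ y
        rw [h6]
        exact Submodule.smul_mem _ _ (Submodule.mem_span_singleton_self y)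
      · rw [Submodule.span_singleton_le_iff_mem]
        refine ⟨Submodule.mem_sup.2 ⟨y + z, Submodule.mem_span_singleton_self _, -z,
          Submodule.neg_mem _ hz, by abel⟩, hy⟩
    rwa [h2] at h1
  refine ⟨main V hV y z hy hz h, main Vᗮ (hV.perp hS) z y hz ?_ (by rwa [add_comm])⟩
  rwa [Submodule.orthogonal_orthogonal]

/-- independence from orthogonality -/
theorem ind3_of_perp {V : Submodule ℝ E} {y z v : E} (hy : y ∈ V) (hv : v ∈ V) (hz : z ∈ Vᗮ)
    (hz0 : z ≠ 0) (hind : ∀ α β : ℝ, α • y + β • v = 0 → α = 0 ∧ β = 0) : Ind3 y z v := by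
  intro α β γ h
  have h1 : α • y + γ • v ∈ V := V.add_mem (V.smul_mem _ hy) (V.smul_mem _ hv)
  have h2 : (inner ℝ (α • y + γ • v) z) = 0 := Submodule.inner_right_of_mem_orthogonal h1 hz
  have h3 : β • z = -(α • y + γ • v) := by
    have e : α • y + β • z + γ • v = β • z + (α • y + γ • v) := by module
    rw [e] at h
    exact eq_neg_of_add_eq_zero_left h
  have h4 : β * (inner ℝ z z) = 0 := by
    have h5 : (inner ℝ (β • z) z) = 0 := by rw [h3, inner_neg_left, h2, neg_zero]
    rwa [real_inner_smul_left] at h5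
  have h5 : β = 0 := by
    rcases mul_eq_zero.1 h4 with h | h
    · exact h
    · exact absurd (inner_self_eq_zero.1 h) hz0
  subst h5
  rw [zero_smul, add_zero] at h
  obtain ⟨h6, h7⟩ := hind _ _ h
  exact ⟨h6, rfl, h7⟩

/-- **The splitting theorem.** -/
theorem split [Nontrivial E] (hS : PoleCone S) :
    ∃ V : Submodule ℝ E, V ≠ ⊥ ∧ S ⊆ (V : Set E) ∪ (Vᗮ : Submodule ℝ E) ∧
      ((V : Set E) ⊆ S ∨ Module.finrank ℝ V ≤ 2) := by
  classical
  have hdec : ∀ (V : Submodule ℝ E) (s : E), ∃ y ∈ V, ∃ z ∈ Vᗮ, s = y + z := fun V s =>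
    Submodule.exists_add_mem_mem_orthogonal (K := V) s
  by_cases hA : ∃ V : Submodule ℝ E, (V : Set E) ⊆ S ∧ 2 ≤ Module.finrank ℝ V
  · -- a maximal subspace inside `S`
    have hex : ∃ V : Submodule ℝ E, ((V : Set E) ⊆ S ∧ 2 ≤ Module.finrank ℝ V) ∧
        ∀ V' : Submodule ℝ E, ((V' : Set E) ⊆ S ∧ 2 ≤ Module.finrank ℝ V') → ¬ V < V' := by
      obtain ⟨V0, hV0⟩ := hA
      obtain ⟨H, hH, hmin⟩ := (wellFounded_gt (α := Submodule ℝ E)).has_min
        {V | (V : Set E) ⊆ S ∧ 2 ≤ Module.finrank ℝ V} ⟨V0, hV0⟩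
      exact ⟨H, hH, fun H' hH' hlt => hmin H' hH' hlt⟩
    obtain ⟨V, ⟨hVS, hV2⟩, hmax⟩ := hex
    refine ⟨V, ?_, ?_, Or.inl hVS⟩
    · rintro rfl
      rw [finrank_bot] at hV2
      omega
    have hLV : Lat S V := by
      intro x hx
      exact Submodule.subset_span ⟨hVS hx, hx⟩
    intro s hs
    obtain ⟨y, hy, z, hz, rfl⟩ := hdec V s
    obtain ⟨hyS, hzS⟩ := comp_mem hS hLV hy hz hs
    by_cases hz0 : z = 0
    · left; rw [hz0, add_zero]; exact hy
    by_cases hy0 : y = 0
    · right; rw [hy0, zero_add]; exact hz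
    exfalso
    -- every vector of `V` independent of `y` gives a subspace in `S`
    have hgen : ∀ v ∈ V, v ∉ (ℝ ∙ y) → ∀ α β γ : ℝ, α • y + β • z + γ • v ∈ S := by
      intro v hv hvy
      apply three hS hyS hzS (hVS hv) _ hs (hVS (V.add_mem hy hv))
      apply ind3_of_perp hy hv hz hz0
      intro α β h
      by_cases hβ : β = 0
      · subst hβ
        rw [zero_smul, add_zero] at h
        rcases smul_eq_zero.1 h with h | h
        · exact ⟨h, rfl⟩
        · exact absurd h hy0
      · exfalso
        apply hvy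
        rw [Submodule.mem_span_singleton]
        refine ⟨-(β⁻¹ * α), ?_⟩
        have h1 : β • v = -(α • y) := by
          rw [add_comm] at h
          exact eq_neg_of_add_eq_zero_left h
        have h2 : v = β⁻¹ • (β • v) := by rw [smul_smul, inv_mul_cancel₀ hβ, one_smul]
        rw [h2, h1]
        module
    have hv : ∃ v ∈ V, v ∉ (ℝ ∙ y) := by
      by_contra hcon
      push Not at hcon
      have h1 : V ≤ ℝ ∙ y := hcon
      have h2 := Submodule.finrank_mono h1
      have h3 := finrank_span_singleton (K := ℝ) hy0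
      omega
    obtain ⟨v, hvV, hvy⟩ := hv
    have hW : ((V ⊔ (ℝ ∙ z) : Submodule ℝ E) : Set E) ⊆ S := by
      intro w hw
      obtain ⟨u, hu, t, ht, rfl⟩ := Submodule.mem_sup.1 hw
      obtain ⟨c, rfl⟩ := Submodule.mem_span_singleton.1 ht
      by_cases huy : u ∈ (ℝ ∙ y)
      · obtain ⟨e, rfl⟩ := Submodule.mem_span_singleton.1 huy
        have := hgen v hvV hvy e c 0
        simpa using this
      · have := hgen u hu huy 0 c 1
        have e : (0 : ℝ) • y + c • z + (1 : ℝ) • u = u + c • z := by module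
        rwa [e] at this
    have hlt : V < V ⊔ (ℝ ∙ z) := by
      refine lt_of_le_of_ne le_sup_left ?_
      intro he
      have h1 : z ∈ V := by
        rw [he]
        exact (le_sup_right : (ℝ ∙ z) ≤ V ⊔ (ℝ ∙ z)) (Submodule.mem_span_singleton_self z)
      exact hz0 (inner_self_eq_zero.1 (Submodule.inner_right_of_mem_orthogonal h1 hz))
    exact hmax _ ⟨hW, hV2.trans (Submodule.finrank_mono hlt.le)⟩ hlt
  · push Not at hA
    -- no plane in `S`
    have hno : ∀ y z : E, y ≠ 0 → (z ∉ (ℝ ∙ y)) → ¬ (∀ α β : ℝ, α • y + β • z ∈ S) := by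
      intro y z hy0 hzy hall
      have h1 : ((span ℝ {y, z} : Submodule ℝ E) : Set E) ⊆ S := by
        intro w hw
        obtain ⟨α, β, rfl⟩ := Submodule.mem_span_pair.1 hw
        exact hall α β
      have h2 := hA _ h1
      have h3 : (ℝ ∙ y) < span ℝ {y, z} := by
        refine lt_of_le_of_ne ?_ ?_
        · exact Submodule.span_mono (by simp)
        · intro he
          apply hzy
          rw [he]
          exact Submodule.subset_span (by simp)
      have h4 := Submodule.finrank_lt_finrank_of_lt h3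
      have h5 := finrank_span_singleton (K := ℝ) hy0
      omega
    have hpair : ∀ y z : E, y ≠ 0 → z ∉ (ℝ ∙ y) → ∀ α β : ℝ, α • y + β • z = 0 → α = 0 ∧ β = 0 := by
      intro y z hy0 hzy α β h
      by_cases hβ : β = 0
      · subst hβ
        rw [zero_smul, add_zero] at h
        rcases smul_eq_zero.1 h with h | h
        · exact ⟨h, rfl⟩
        · exact absurd h hy0
      · exfalso
        apply hzy
        rw [Submodule.mem_span_singleton]
        refine ⟨-(β⁻¹ * α), ?_⟩
        have h1 : β • z = -(α • y) := by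
          rw [add_comm] at h
          exact eq_neg_of_add_eq_zero_left h
        have h2 : z = β⁻¹ • (β • z) := by rw [smul_smul, inv_mul_cancel₀ hβ, one_smul]
        rw [h2, h1]
        module
    have hperpnot : ∀ (V : Submodule ℝ E) (y z : E), y ∈ V → z ∈ Vᗮ → z ≠ 0 → z ∉ (ℝ ∙ y) := by
      intro V y z hy hz hz0 hmem
      obtain ⟨c, hc⟩ := Submodule.mem_span_singleton.1 hmem
      have h1 : z ∈ V := by rw [← hc]; exact V.smul_mem c hy
      exact hz0 (inner_self_eq_zero.1 (Submodule.inner_right_of_mem_orthogonal h1 hz))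
    by_cases hB : ∃ a b : E, a ∈ S ∧ b ∈ S ∧ a + b ∈ S ∧ a ≠ 0 ∧ b ∉ (ℝ ∙ a)
    · obtain ⟨a, b, ha, hb, hab, ha0, hba⟩ := hB
      have hi := hpair a b ha0 hba
      have hlt : (ℝ ∙ a) < span ℝ {a, b} := by
        refine lt_of_le_of_ne ?_ ?_
        · exact Submodule.span_mono (by simp)
        · intro he
          apply hba
          rw [he]
          exact Submodule.subset_span (by simp)
      refine ⟨span ℝ {a, b}, ?_, ?_, Or.inr ?_⟩
      · intro he
        rw [he] at hlt
        exact not_lt_bot hlt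
      rotate_left
      · have h3 := finrank_span_le_card (R := ℝ) ({a, b} : Set E)
        refine h3.trans ?_
        rw [Set.toFinset_insert, Set.toFinset_singleton]
        exact Finset.card_le_two
      intro s hs
      obtain ⟨y, hy, z, hz, rfl⟩ := hdec (span ℝ {a, b}) s
      obtain ⟨hyS, hzS⟩ := comp_mem hS (lat_plane ha hb) hy hz hs
      by_cases hz0 : z = 0
      · left; rw [hz0, add_zero]; exact hy
      by_cases hy0 : y = 0
      · right; rw [hy0, zero_add]; exact hz
      exfalso
      have haV : a ∈ span ℝ {a, b} := Submodule.subset_span (by simp)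
      have hbV : b ∈ span ℝ {a, b} := Submodule.subset_span (by simp)
      have hfin : ∀ d : E, d ∈ span ℝ {a, b} → d ∈ S → y + d ∈ S →
          (∀ α β : ℝ, α • y + β • d = 0 → α = 0 ∧ β = 0) → False := by
        intro d hd hdS hyd hind
        have h1 := three hS hyS hzS hdS (ind3_of_perp hy hd hz hz0 hind) hs hyd
        refine hno y z hy0 (hperpnot _ y z hy hz hz0) (fun α β => ?_)
        have := h1 α β 0
        rwa [zero_smul, add_zero] at this
      obtain ⟨u, v, huv⟩ := Submodule.mem_span_pair.1 hy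
      by_cases hu : u = 0
      · have hv : v ≠ 0 := by
          rintro rfl
          apply hy0
          rw [← huv, hu]; simp
        apply hfin (v • a) (Submodule.smul_mem _ _ haV) (hS.cone _ ha v)
        · rw [← huv, hu, zero_smul, zero_add, ← smul_add, add_comm b a]
          exact hS.cone _ hab v
        · intro α β h
          rw [← huv, hu] at h
          obtain ⟨h1, h2⟩ := hi (β * v) (α * v) (by rw [← h]; module)
          constructor
          · rcases mul_eq_zero.1 h2 with h | h
            · exact h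
            · exact absurd h hv
          · rcases mul_eq_zero.1 h1 with h | h
            · exact h
            · exact absurd h hv
      · by_cases hv : v = 0
        · apply hfin (u • b) (Submodule.smul_mem _ _ hbV) (hS.cone _ hb u)
          · rw [← huv, hv, zero_smul, add_zero, ← smul_add]
            exact hS.cone _ hab u
          · intro α β h
            rw [← huv, hv] at h
            obtain ⟨h1, h2⟩ := hi (α * u) (β * u) (by rw [← h]; module)
            constructor
            · rcases mul_eq_zero.1 h1 with h | h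
              · exact h
              · exact absurd h hu
            · rcases mul_eq_zero.1 h2 with h | h
              · exact h
              · exact absurd h hu
        · apply hfin ((-u) • a) (Submodule.smul_mem _ _ haV) (hS.cone _ ha (-u))
          · rw [← huv]
            have e : u • a + v • b + (-u) • a = v • b := by module
            rw [e]
            exact hS.cone _ hb v
          · intro α β h
            rw [← huv] at h
            obtain ⟨h1, h2⟩ := hi (α * u - β * u) (α * v) (by rw [← h]; module)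
            have h3 : α = 0 := by
              rcases mul_eq_zero.1 h2 with h | h
              · exact h
              · exact absurd h hv
            subst h3
            refine ⟨rfl, ?_⟩
            have h4 : β * u = 0 := by linarith
            rcases mul_eq_zero.1 h4 with h | h
            · exact h
            · exact absurd h hu
    · push Not at hB
      have hE : ∃ s ∈ S, s ≠ 0 := by
        by_contra hE
        push Not at hE
        have h1 : span ℝ S = ⊥ := Submodule.span_eq_bot.2 hE
        rw [hS.span] at h1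
        exact top_ne_bot h1
      obtain ⟨s₀, hs₀, hs₀0⟩ := hE
      refine ⟨ℝ ∙ s₀, ?_, ?_, Or.inr ?_⟩
      · rw [Ne, Submodule.span_singleton_eq_bot]
        exact hs₀0
      · intro s hs
        obtain ⟨y, hy, z, hz, rfl⟩ := hdec (ℝ ∙ s₀) s
        obtain ⟨hyS, hzS⟩ := comp_mem hS (lat_line hs₀) hy hz hs
        by_cases hz0 : z = 0
        · left; rw [hz0, add_zero]; exact hy
        by_cases hy0 : y = 0
        · right; rw [hy0, zero_add]; exact hz
        exfalso
        exact hperpnot _ y z hy hz hz0 (hB y z hyS hzS hs hy0)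
      · rw [finrank_span_singleton (K := ℝ) hs₀0]
        norm_num

end Basic

end Pool.Agent.PB.H15
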