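import Pool.Agent.Helper55_PB.Mid

/-!
# LINS: linear algebra for the middle projection bodies
-/

open Module Set
open scoped RealInnerProductSpace

namespace Pool.Agent.PB.H15

open Pool.Agent.Helper55_PB

theorem linS : LinSStmt := by
  classical
  intro E _ _ _ S i hi hin hspan hS w hw
  -- a basis in `S`
  have hle : (⊤ : Submodule ℝ E) ≤ Submodule.span ℝ S := by rw [hspan]
  obtain ⟨b, hb⟩ : ∃ b : Basis (Fin (finrank ℝ E)) ℝ E, ∀ k, b k ∈ S := by
    let b0 := Basis.ofSpan hle
    have hfin : Fintype ((linearIndepOn_empty ℝ (id : E → E)).extend (empty_subset S)) :=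
      FiniteDimensional.fintypeBasisIndex b0
    have hcard : Fintype.card ((linearIndepOn_empty ℝ (id : E → E)).extend (empty_subset S)) =
        finrank ℝ E := (finrank_eq_card_basis b0).symm
    refine ⟨b0.reindex (Fintype.equivFinOfCardEq hcard), fun k => ?_⟩
    apply Basis.ofSpan_subset hle
    rw [Basis.reindex_apply]
    exact ⟨_, rfl⟩
  -- the dual basis
  set c : Fin (finrank ℝ E) → E := fun j => (InnerProductSpace.toDual ℝ E).symm
    (LinearMap.toContinuousLinearMap (b.coord j)) with hc
  have hcx : ∀ j x, ⟪c j, x⟫ = b.coord j x := by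
    intro j x
    rw [hc]
    simp only [InnerProductSpace.toDual_symm_apply]
    rfl
  have hcb : ∀ j k, ⟪c j, b k⟫ = if k = j then 1 else 0 := by
    intro j k
    rw [hcx, Basis.coord_apply, Basis.repr_self, Finsupp.single_apply]
  obtain ⟨j0, hj0⟩ : ∃ j, ⟪c j, w⟫ ≠ 0 := by
    by_contra hcon
    push Not at hcon
    apply hw
    apply b.ext_elem
    intro j
    have := hcon j
    rw [hcx, Basis.coord_apply] at this
    rw [this, map_zero]
    rfl
  -- elements of `S` orthogonal to `w`
  set v : Fin (finrank ℝ E) → E := fun l => ⟪c j0, w⟫ • c l - ⟪c l, w⟫ • c j0 with hv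
  have hvb : ∀ l k, ⟪v l, b k⟫ = ⟪c j0, w⟫ * (if k = l then 1 else 0) -
      ⟪c l, w⟫ * (if k = j0 then 1 else 0) := by
    intro l k
    rw [hv]
    simp only [inner_sub_left, real_inner_smul_left, hcb]
  have hvS : ∀ l, l ≠ j0 → v l ∈ S := by
    intro l hl
    have hcard : i ≤ (Finset.univ \ {j0, l} : Finset (Fin (finrank ℝ E))).card := by
      rw [Finset.card_sdiff_of_subset (Finset.subset_univ _), Finset.card_univ, Fintype.card_fin,
        Finset.card_pair hl.symm]
      omega
    set e := Finset.orderEmbOfCardLe _ hcard with he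
    have hmem : ∀ t, e t ≠ j0 ∧ e t ≠ l := by
      intro t
      have := Finset.orderEmbOfCardLe_mem _ hcard t
      simpa using this
    refine hS (fun t => b (e t)) (b.linearIndependent.comp _ e.injective) (fun t => hb _) _ ?_ ?_
    · intro h0
      have h1 := hvb l l
      rw [h0, inner_zero_left, if_pos rfl, if_neg hl] at h1
      apply hj0
      linarith
    · intro t
      rw [real_inner_comm, hvb, if_neg (hmem t).2, if_neg (hmem t).1]
      ring
  -- enough of them
  have hcard : i ≤ (Finset.univ \ {j0} : Finset (Fin (finrank ℝ E))).card := by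
    rw [Finset.card_sdiff_of_subset (Finset.subset_univ _), Finset.card_univ, Fintype.card_fin,
      Finset.card_singleton]
    omega
  set e := Finset.orderEmbOfCardLe _ hcard with he
  have hmem : ∀ t, e t ≠ j0 := by
    intro t
    have := Finset.orderEmbOfCardLe_mem _ hcard t
    simpa using this
  refine hS (fun t => v (e t)) ?_ (fun t => hvS _ (hmem t)) w hw ?_
  · rw [Fintype.linearIndependent_iff]
    intro g hg s
    have h1 : ⟪∑ t, g t • v (e t), b (e s)⟫ = 0 := by rw [hg, inner_zero_left]
    rw [sum_inner] at h1
    have h2 : ∀ t, ⟪g t • v (e t), b (e s)⟫ = if t = s then g s * ⟪c j0, w⟫ else 0 := by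
      intro t
      rw [real_inner_smul_left, hvb, if_neg (hmem s)]
      by_cases hts : t = s
      · subst hts
        simp
      · have : e s ≠ e t := fun h => hts (e.injective h).symm
        rw [if_neg this, if_neg hts]
        ring
    simp only [h2, Finset.sum_ite_eq', Finset.mem_univ, if_true] at h1
    exact (mul_eq_zero.1 h1).resolve_right hj0
  · intro t
    rw [hv]
    simp only [inner_sub_left, real_inner_smul_left]
    ring

end Pool.Agent.PB.H15
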