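import Pool.Agent.Helper55_PB.Pole

/-!
# Dimensions one and two
-/

open MeasureTheory Module Set
open scoped RealInnerProductSpace Pointwise ENNReal Topology

namespace Pool.Agent.PB.H15

open Pool.Agent.Helper55_PB

variable {E : Type*} [NormedAddCommGroup E] [InnerProductSpace ℝ E] [FiniteDimensional ℝ E]
  [MeasurableSpace E] [BorelSpace E]

/-- volume in dimension zero -/
theorem volume_dim0 (h : finrank ℝ E = 0) {A : Set E} (hA : A.Nonempty) : volume A = 1 := by
  haveI : Subsingleton E := finrank_zero_iff.1 h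
  have h1 := (stdOrthonormalBasis ℝ E).volume_parallelepiped
  have h2 : (parallelepiped (stdOrthonormalBasis ℝ E)).Nonempty := by
    apply nonempty_of_measure_ne_zero (μ := volume)
    rw [h1]
    exact one_ne_zero
  rw [Subsingleton.eq_univ_of_nonempty h2] at h1
  rw [Subsingleton.eq_univ_of_nonempty hA, h1]

/-- dimension one -/
theorem segVol_dim1 (h : finrank ℝ E = 1) {K : Set E} (hK : IsCompact K) (hc : Convex ℝ K)
    (hne : K.Nonempty) (w : E) : segVol K w = ‖w‖ := by
  by_cases hw : w = 0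
  · rw [hw, segVol_zero, norm_zero]
  obtain ⟨e, he, hwe⟩ := exists_unit w hw
  have he0 : e ≠ 0 := by
    rintro rfl
    simp at he
  have h1 : segVol K w = ‖w‖ * shadowVol K e := by
    conv_lhs => rw [hwe]
    exact segVol_eq hK hc he (norm_nonneg _)
  have h2 : finrank ℝ ((ℝ ∙ e)ᗮ : Submodule ℝ E) = 0 := by
    have h3 := Submodule.finrank_add_finrank_orthogonal (ℝ ∙ e)
    rw [finrank_span_singleton he0, h] at h3
    omega
  rw [h1, shadowVol, volume_dim0 h2 (hne.image _)]
  simp

omit [FiniteDimensional ℝ E] [MeasurableSpace E] [BorelSpace E] in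
theorem supportFn_neg {K : Set E} (hK : IsCompact K) (hne : K.Nonempty)
    (hs : ∀ x ∈ K, -x ∈ K) (u : E) : supportFn K (-u) = supportFn K u := by
  have key : ∀ u, supportFn K (-u) ≤ supportFn K u := by
    intro u
    refine supportFn_le hne fun x hx => ?_
    have := inner_le_supportFn hK (hs x hx) u
    rw [inner_neg_left] at this
    rw [inner_neg_right]
    exact this
  refine le_antisymm (key u) ?_
  have := key (-u)
  rwa [neg_neg] at this

omit [FiniteDimensional ℝ E] [MeasurableSpace E] [BorelSpace E] in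
theorem image_inner {K : Set E} (hK : IsCompact K) (hc : Convex ℝ K) (hne : K.Nonempty)
    (hs : ∀ x ∈ K, -x ∈ K) (f : E) :
    (fun z => ⟪z, f⟫) '' K = Icc (-supportFn K f) (supportFn K f) := by
  ext t
  constructor
  · rintro ⟨z, hz, rfl⟩
    refine ⟨?_, inner_le_supportFn hK hz f⟩
    have := inner_le_supportFn hK (hs z hz) f
    rw [inner_neg_left] at this
    simp only
    linarith
  · rintro ⟨h1, h2⟩
    obtain ⟨x, hx, hxf⟩ := exists_supportFn hK hne f
    set h := supportFn K f with hh
    by_cases h0 : h = 0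
    · refine ⟨x, hx, ?_⟩
      simp only
      linarith
    · have hpos : 0 < h := lt_of_le_of_ne (by linarith) (Ne.symm h0)
      refine ⟨((1 + t / h) / 2) • x + ((1 - t / h) / 2) • (-x), ?_, ?_⟩
      · have h3 : -1 ≤ t / h := by rw [le_div_iff₀ hpos]; linarith
        have h4 : t / h ≤ 1 := by rw [div_le_iff₀ hpos]; linarith
        exact hc hx (hs x hx) (by linarith) (by linarith) (by ring)
      · simp only
        rw [inner_add_left, real_inner_smul_left, real_inner_smul_left, inner_neg_left, hxf]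
        field_simp
        ring

/-- the projection to a line -/
theorem shadow_line {W : Submodule ℝ E} {f : E} (hf : ‖f‖ = 1) (hW : W = (ℝ ∙ f)) {K : Set E}
    (hK : IsCompact K) (hc : Convex ℝ K) (hne : K.Nonempty) (hs : ∀ x ∈ K, -x ∈ K) :
    (volume (W.orthogonalProjectionOnto '' K)).toReal = 2 * supportFn K f := by
  subst hW
  have hmp : MeasurePreserving (LinearIsometryEquiv.toSpanUnitSingleton (𝕜 := ℝ) f hf) :=
    LinearIsometryEquiv.measurePreserving _
  have hm : MeasurableSet ((ℝ ∙ f).orthogonalProjectionOnto '' K) :=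
    (hK.image (ContinuousLinearMap.continuous _)).measurableSet
  rw [← hmp.measure_preimage hm.nullMeasurableSet]
  have hpre : (LinearIsometryEquiv.toSpanUnitSingleton (𝕜 := ℝ) f hf) ⁻¹'
      ((ℝ ∙ f).orthogonalProjectionOnto '' K) = (fun z => ⟪z, f⟫) '' K := by
    ext t
    constructor
    · rintro ⟨z, hz, hzt⟩
      refine ⟨z, hz, ?_⟩
      have h1 := congrArg (fun v : (ℝ ∙ f) => ⟪(v : E), f⟫) hzt
      simp only [Submodule.coe_orthogonalProjectionOnto_apply,
        Submodule.starProjection_unit_singleton ℝ hf,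
        LinearIsometryEquiv.toSpanUnitSingleton_apply] at h1
      rw [real_inner_smul_left, real_inner_smul_left, real_inner_self_eq_norm_sq, hf] at h1
      show ⟪z, f⟫ = t
      rw [real_inner_comm]
      linarith
    · rintro ⟨z, hz, rfl⟩
      refine ⟨z, hz, ?_⟩
      apply Subtype.ext
      simp only [Submodule.coe_orthogonalProjectionOnto_apply,
        Submodule.starProjection_unit_singleton ℝ hf,
        LinearIsometryEquiv.toSpanUnitSingleton_apply]
      rw [real_inner_comm]
  rw [hpre, image_inner hK hc hne hs, Real.volume_Icc]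
  have h0 : 0 ≤ supportFn K f := by
    obtain ⟨x, hx⟩ := hne
    have h1 := inner_le_supportFn hK hx f
    have h2 := inner_le_supportFn hK (hs x hx) f
    rw [inner_neg_left] at h2
    linarith
  rw [ENNReal.toReal_ofReal (by linarith)]
  ring

/-- dimension two -/
theorem segVol_dim2 (h : finrank ℝ E = 2) {K : Set E} (hK : IsCompact K) (hc : Convex ℝ K)
    (hne : K.Nonempty) (hs : ∀ x ∈ K, -x ∈ K) {x y : E} (hn : ‖y‖ = ‖x‖) (hxy : ⟪x, y⟫ = 0) :
    segVol K x = 2 * supportFn K y := by
  by_cases hx : x = 0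
  · have hy : y = 0 := by
      rw [hx, norm_zero] at hn
      exact norm_eq_zero.1 hn
    rw [hx, hy, segVol_zero, supportFn_zero hK hne, mul_zero]
  have hxn : ‖x‖ ≠ 0 := norm_ne_zero_iff.2 hx
  set e := ‖x‖⁻¹ • x with he
  set f := ‖x‖⁻¹ • y with hf
  have he1 : ‖e‖ = 1 := by
    rw [he, norm_smul, norm_inv, norm_norm, inv_mul_cancel₀ hxn]
  have hf1 : ‖f‖ = 1 := by
    rw [hf, norm_smul, norm_inv, norm_norm, hn, inv_mul_cancel₀ hxn]
  have hxe : x = ‖x‖ • e := by rw [he, smul_smul, mul_inv_cancel₀ hxn, one_smul]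
  have hyf : y = ‖x‖ • f := by rw [hf, smul_smul, mul_inv_cancel₀ hxn, one_smul]
  have he0 : e ≠ 0 := by
    intro h0
    rw [h0] at he1
    simp at he1
  have hf0 : f ≠ 0 := by
    intro h0
    rw [h0] at hf1
    simp at hf1
  have hef : ⟪e, f⟫ = 0 := by
    rw [he, hf, real_inner_smul_left, real_inner_smul_right, hxy, mul_zero, mul_zero]
  have hW : (ℝ ∙ e)ᗮ = (ℝ ∙ f) := by
    symm
    apply Submodule.eq_of_le_of_finrank_eq
    · rw [Submodule.span_singleton_le_iff_mem, Submodule.mem_orthogonal_singleton_iff_inner_right]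
      exact hef
    · have h3 := Submodule.finrank_add_finrank_orthogonal (ℝ ∙ e)
      rw [finrank_span_singleton he0, h] at h3
      rw [finrank_span_singleton hf0]
      omega
  have h1 : segVol K x = ‖x‖ * shadowVol K e := by
    conv_lhs => rw [hxe]
    exact segVol_eq hK hc he1 (norm_nonneg _)
  have h2 : supportFn K y = ‖x‖ * supportFn K f := by
    conv_lhs => rw [hyf]
    exact supportFn_smul hK hne (norm_nonneg _) _
  rw [h1, shadowVol, shadow_line hf1 hW hK hc hne hs, h2]
  ring

omit [FiniteDimensional ℝ E] [MeasurableSpace E] [BorelSpace E] in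
/-- the quarter turn -/
theorem exists_rot (h : finrank ℝ E = 2) : ∃ J : E ≃ₗᵢ[ℝ] E, (∀ x, ⟪x, J x⟫ = 0) ∧
    (∀ x, J (J x) = -x) ∧ (∀ x y, ⟪J x, y⟫ = -⟪x, J y⟫) ∧
    ∀ x y, ‖y‖ = ‖x‖ → ⟪x, y⟫ = 0 → (y = J x ∨ y = -J x) := by
  haveI : Fact (finrank ℝ E = 2) := ⟨h⟩
  haveI : FiniteDimensional ℝ E := .of_fact_finrank_eq_two
  let o : Orientation ℝ E (Fin 2) :=
    ((stdOrthonormalBasis ℝ E).reindex (finCongr h)).toBasis.orientation
  refine ⟨o.rightAngleRotation, ?_, o.rightAngleRotation_rightAngleRotation,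
    o.inner_rightAngleRotation_swap', ?_⟩
  · intro x
    rw [real_inner_comm]
    exact o.inner_rightAngleRotation_self x
  · intro x y hn hxy
    by_cases hx : x = 0
    · left
      have hy : y = 0 := by
        rw [hx, norm_zero] at hn
        exact norm_eq_zero.1 hn
      rw [hx, hy, map_zero]
    have hxn : ‖x‖ ^ 2 ≠ 0 := pow_ne_zero _ (norm_ne_zero_iff.2 hx)
    have h1 := o.abs_areaForm_of_orthogonal hxy
    rw [hn] at h1
    rcases abs_choice (o.areaForm x y) with h2 | h2
    · left
      apply ext_inner_right ℝ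
      intro u
      have h3 := o.inner_mul_inner_add_areaForm_mul_areaForm x y u
      rw [o.inner_rightAngleRotation_left]
      rw [hxy, ← h2, h1] at h3
      apply mul_left_cancel₀ hxn
      linarith
    · right
      apply ext_inner_right ℝ
      intro u
      have h3 := o.inner_mul_inner_add_areaForm_mul_areaForm x y u
      rw [inner_neg_left, o.inner_rightAngleRotation_left]
      have h4 : o.areaForm x y = -(‖x‖ * ‖x‖) := by linarith
      rw [hxy, h4] at h3
      apply mul_left_cancel₀ hxn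
      linarith

/-- a centred solution in dimension two is invariant under the quarter turn, and `c = 2` -/
theorem good_dim2 (h : finrank ℝ E = 2) {K : Set E} {c : ℝ} (hG : Good K c) : c = 2 ∧
    ∀ x ∈ K, ∀ y : E, ‖y‖ = ‖x‖ → ⟪x, y⟫ = 0 → y ∈ K := by
  obtain ⟨J, hJ0, hJ2, hJs, hJ⟩ := exists_rot h
  have hne : K.Nonempty := ⟨0, interior_subset hG.zero_mem⟩
  have h1 : ∀ x, c * supportFn K x = 2 * supportFn K (J x) := by
    intro x
    rw [← hG.eq]
    exact segVol_dim2 h hG.compact hG.convex hne hG.symm (J.norm_map x) (hJ0 x)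
  have hc : c = 2 := by
    obtain ⟨x, hx⟩ : ∃ x : E, x ≠ 0 := by
      haveI : Nontrivial E := Module.nontrivial_of_finrank_pos (R := ℝ) (by omega)
      exact exists_ne 0
    obtain ⟨ρ, hρ, hb⟩ := exists_ball_zero hG.zero_mem
    have hpos : 0 < supportFn K x := by
      have := le_supportFn_of_ball hG.compact hρ.le hb x
      have := norm_pos_iff.2 hx
      nlinarith
    have h2 := h1 x
    have h3 := h1 (J x)
    rw [hJ2, supportFn_neg hG.compact hne hG.symm] at h3
    have h4 : c * c * supportFn K x = 4 * supportFn K x := by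
      calc c * c * supportFn K x = c * (c * supportFn K x) := by ring
        _ = c * (2 * supportFn K (J x)) := by rw [h2]
        _ = 2 * (c * supportFn K (J x)) := by ring
        _ = 4 * supportFn K x := by rw [h3]; ring
    have h5 := mul_right_cancel₀ hpos.ne' h4
    have := hG.pos
    nlinarith
  refine ⟨hc, ?_⟩
  have h2 : ∀ x, supportFn K (J x) = supportFn K x := by
    intro x
    have := h1 x
    rw [hc] at this
    linarith
  intro x hx y hn hxy
  refine mem_of_forall_innerNormal hG.compact hG.convex hG.zero_mem fun v _ => ?_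
  have h3 : ⟪x, J v⟫ ≤ supportFn K v := by
    rw [← h2 v]
    exact inner_le_supportFn hG.compact hx _
  have h4 : -⟪x, J v⟫ ≤ supportFn K v := by
    rw [← h2 v, ← inner_neg_left]
    exact inner_le_supportFn hG.compact (hG.symm x hx) _
  rcases hJ x y hn hxy with rfl | rfl
  · rw [hJs]; exact h4
  · rw [inner_neg_left, hJs, neg_neg]; exact h3

/-- conversely -/
theorem segVol_of_quarter (h : finrank ℝ E = 2) {K : Set E} (hK : IsCompact K)
    (hc : Convex ℝ K) (hne : K.Nonempty)
    (hq : ∀ x ∈ K, ∀ y : E, ‖y‖ = ‖x‖ → ⟪x, y⟫ = 0 → y ∈ K) (w : E) :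
    segVol K w = 2 * supportFn K w := by
  obtain ⟨J, hJ0, hJ2, hJs, hJ⟩ := exists_rot h
  have hJK : ∀ x ∈ K, J x ∈ K := fun x hx => hq x hx _ (J.norm_map x) (hJ0 x)
  have hs : ∀ x ∈ K, -x ∈ K := by
    intro x hx
    rw [← hJ2]
    exact hJK _ (hJK x hx)
  rw [segVol_dim2 h hK hc hne hs (J.norm_map w) (hJ0 w)]
  congr 1
  apply le_antisymm
  · refine supportFn_le hne fun z hz => ?_
    have h1 := inner_le_supportFn hK (hs _ (hJK z hz)) w
    rw [inner_neg_left, hJs, neg_neg] at h1
    exact h1
  · refine supportFn_le hne fun z hz => ?_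
    have h1 := inner_le_supportFn hK (hJK z hz) (J w)
    rwa [J.inner_map_map] at h1

/-- quarter turn invariance gives central symmetry -/
theorem symm_of_quarter (h : finrank ℝ E = 2) {K : Set E}
    (hq : ∀ x ∈ K, ∀ y : E, ‖y‖ = ‖x‖ → ⟪x, y⟫ = 0 → y ∈ K) : ∀ x ∈ K, -x ∈ K := by
  obtain ⟨J, hJ0, hJ2, hJs, hJ⟩ := exists_rot h
  have hJK : ∀ x ∈ K, J x ∈ K := fun x hx => hq x hx _ (J.norm_map x) (hJ0 x)
  intro x hx
  rw [← hJ2]
  exact hJK _ (hJK x hx)

end Pool.Agent.PB.H15
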