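import Pool.Agent.Helper55_PB.Mid

/-!
# SUBSP: iterated differences along an orthonormal system
-/

open MeasureTheory Module Set
open scoped RealInnerProductSpace Pointwise Topology ENNReal

namespace Pool.Agent.PB.H15

open Pool.Agent.Helper55_PB

section Iso

variable {E F : Type} [NormedAddCommGroup E] [InnerProductSpace ℝ E] [FiniteDimensional ℝ E]
  [MeasurableSpace E] [BorelSpace E] [NormedAddCommGroup F] [InnerProductSpace ℝ F]
  [FiniteDimensional ℝ F] [MeasurableSpace F] [BorelSpace F]

theorem volume_iso (φ : E ≃ₗᵢ[ℝ] F) (A : Set E) : volume (φ '' A) = volume A := by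
  have h1 : MeasurePreserving φ := φ.measurePreserving
  have h2 := h1.measure_preimage_emb φ.toHomeomorph.measurableEmbedding (φ '' A)
  rw [← h2, preimage_image_eq _ φ.injective]

omit [FiniteDimensional ℝ E] [MeasurableSpace E] [BorelSpace E] [FiniteDimensional ℝ F]
  [MeasurableSpace F] [BorelSpace F] in
theorem image_add_segment (φ : E ≃ₗᵢ[ℝ] F) (A : Set E) (w : E) :
    φ '' (A + segment ℝ (0 : E) w) = φ '' A + segment ℝ (0 : F) (φ w) := by
  rw [Set.image_add]
  congr 1
  have := image_segment ℝ (φ.toLinearEquiv.toLinearMap.toAffineMap) (0 : E) w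
  simpa using this

theorem segVol_iso (φ : E ≃ₗᵢ[ℝ] F) (A : Set E) (w : E) :
    segVol (φ '' A) (φ w) = segVol A w := by
  unfold segVol
  rw [← image_add_segment, volume_iso, volume_iso]

theorem defect_iso (φ : E ≃ₗᵢ[ℝ] F) (A : Set E) (w₁ w₂ : E) :
    defect (φ '' A) (φ w₁) (φ w₂) = defect A w₁ w₂ := by
  unfold defect
  rw [← map_add, segVol_iso, segVol_iso, segVol_iso]

end Iso

theorem delSubsp_aux (hproj : DelProjStmt) (k : ℕ) : ∀ {E : Type} [NormedAddCommGroup E]
    [InnerProductSpace ℝ E] [FiniteDimensional ℝ E] [MeasurableSpace E] [BorelSpace E]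
    (K : Set E), IsCompact K → Convex ℝ K → K.Nonempty →
    ∀ (w₁ w₂ : E) (L : Submodule ℝ E), finrank ℝ L + k = finrank ℝ E →
    ∃ g : Fin k → E, Del (List.ofFn g) K w₁ w₂ =
      defect (L.orthogonalProjectionOnto '' K) (L.orthogonalProjectionOnto w₁)
        (L.orthogonalProjectionOnto w₂) := by
  induction k with
  | zero =>
    intro E _ _ _ _ _ K hK hc hne w₁ w₂ L hL
    have hLt : L = ⊤ := Submodule.eq_top_of_finrank_eq (by omega)
    refine ⟨fun i => i.elim0, ?_⟩
    simp only [List.ofFn_zero, Del]
    -- the isometry `L ≃ E`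
    have hmem : ∀ x : E, x ∈ L := fun x => by rw [hLt]; trivial
    let φ : L ≃ₗᵢ[ℝ] E :=
      { toLinearEquiv := LinearEquiv.ofBijective L.subtype
          ⟨L.injective_subtype, fun x => ⟨⟨x, hmem x⟩, rfl⟩⟩
        norm_map' := fun x => rfl }
    have hφ : ∀ x : E, φ (L.orthogonalProjectionOnto x) = x := by
      intro x
      show ((L.orthogonalProjectionOnto x : L) : E) = x
      exact Submodule.starProjection_eq_self_iff.mpr (hmem x)
    have h1 := defect_iso φ (L.orthogonalProjectionOnto '' K) (L.orthogonalProjectionOnto w₁)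
      (L.orthogonalProjectionOnto w₂)
    rw [hφ, hφ, image_image] at h1
    simp only [hφ, image_id'] at h1
    exact h1
  | succ k ih =>
    intro E _ _ _ _ _ K hK hc hne w₁ w₂ L hL
    -- a unit vector orthogonal to `L`
    have hdim := Submodule.finrank_add_finrank_orthogonal L
    obtain ⟨u, hu, hu0⟩ : ∃ u ∈ Lᗮ, u ≠ 0 := by
      apply Submodule.exists_mem_ne_zero_of_ne_bot
      intro h
      rw [h, finrank_bot] at hdim
      omega
    obtain ⟨v, hv1, huv⟩ := exists_unit u hu0
    have hv0 : v ≠ 0 := by
      rintro rfl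
      simp at hv1
    have hvL : v ∈ Lᗮ := by
      have h1 : v = ‖u‖⁻¹ • u := by
        rw [huv, norm_smul, norm_norm, hv1, mul_one, smul_smul,
          inv_mul_cancel₀ (norm_ne_zero_iff.2 hu0), one_smul]
      rw [h1]
      exact Submodule.smul_mem _ _ hu
    set W : Submodule ℝ E := (ℝ ∙ v)ᗮ with hW
    have hLW : L ≤ W := by
      intro x hx
      rw [hW, Submodule.mem_orthogonal_singleton_iff_inner_right]
      exact Submodule.inner_left_of_mem_orthogonal hx hvL
    have hWdim : finrank ℝ W + 1 = finrank ℝ E := by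
      have h1 := Submodule.finrank_add_finrank_orthogonal (ℝ ∙ v)
      rw [finrank_span_singleton hv0, ← hW] at h1
      omega
    set L' : Submodule ℝ W := L.comap W.subtype with hL'
    -- the isometry `L' ≃ L`
    let φ : L' ≃ₗᵢ[ℝ] L :=
      { toLinearEquiv := LinearEquiv.ofBijective
          ((W.subtype.comp L'.subtype).codRestrict L (fun x => x.2))
          ⟨fun x y h => by
            apply Subtype.ext
            apply Subtype.ext
            exact congrArg (fun z : L => (z : E)) h, fun x => ⟨⟨⟨x.1, hLW x.2⟩, x.2⟩, rfl⟩⟩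
        norm_map' := fun x => rfl }
    have hφ0 : ∀ x : L', ((φ x : L) : E) = ((x : W) : E) := fun x => rfl
    have hL'dim : finrank ℝ L' = finrank ℝ L := φ.toLinearEquiv.finrank_eq
    have hφ : ∀ x : E, φ (L'.orthogonalProjectionOnto (W.orthogonalProjectionOnto x)) =
        L.orthogonalProjectionOnto x := by
      intro x
      apply Subtype.ext
      rw [hφ0]
      symm
      refine Submodule.eq_starProjection_of_mem_of_inner_eq_zero (K := L) ?_ ?_
      · exact (L'.orthogonalProjectionOnto (W.orthogonalProjectionOnto x)).2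
      · intro y hy
        have h1 : ⟪x - ((W.orthogonalProjectionOnto x : W) : E), y⟫ = 0 :=
          Submodule.starProjection_inner_eq_zero x y (hLW hy)
        have h2 : ⟪(W.orthogonalProjectionOnto x : W) -
            ((L'.orthogonalProjectionOnto (W.orthogonalProjectionOnto x) : L') : W),
              (⟨y, hLW hy⟩ : W)⟫ = 0 :=
          Submodule.starProjection_inner_eq_zero (K := L') _ _ hy
        have h3 : ⟪((W.orthogonalProjectionOnto x : W) : E) -
            ((L'.orthogonalProjectionOnto (W.orthogonalProjectionOnto x) : L') : W), y⟫ = 0 := h2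
        rw [inner_sub_left] at h1 h3 ⊢
        linarith
    obtain ⟨g', hg'⟩ := ih (W.orthogonalProjectionOnto '' K)
      (hK.image (ContinuousLinearMap.continuous _))
      (hc.linear_image (W.orthogonalProjectionOnto : E →ₗ[ℝ] W)) (hne.image _)
      (W.orthogonalProjectionOnto w₁) (W.orthogonalProjectionOnto w₂) L' (by omega)
    refine ⟨Fin.cons v (fun j => (g' j : E)), ?_⟩
    rw [List.ofFn_succ]
    simp only [Fin.cons_zero, Fin.cons_succ]
    rw [hproj _ K hK hc hne v w₁ w₂ hv1, List.map_ofFn]
    have h4 : ((ℝ ∙ v)ᗮ.orthogonalProjectionOnto ∘ fun j => ((g' j : W) : E)) = g' := by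
      funext j
      exact Submodule.orthogonalProjectionOnto_mem_subspace_eq_self (K := W) (g' j)
    rw [h4]
    refine hg'.trans ?_
    have h5 := defect_iso φ (L'.orthogonalProjectionOnto '' (W.orthogonalProjectionOnto '' K))
      (L'.orthogonalProjectionOnto (W.orthogonalProjectionOnto w₁))
      (L'.orthogonalProjectionOnto (W.orthogonalProjectionOnto w₂))
    rw [hφ, hφ, image_image, image_image] at h5
    simp only [hφ] at h5
    exact h5.symm

theorem delSubsp (hproj : DelProjStmt) : DelSubspStmt :=
  fun K hK hc hne w₁ w₂ k L hL => delSubsp_aux hproj k K hK hc hne w₁ w₂ L hL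

end Pool.Agent.PB.H15
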